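import Mathlib

set_option autoImplicit false

namespace Pool.Agent.Y388.SG

/-- the shift action of `ℤ` on the free group on `ℤ` -/
def sh : Multiplicative ℤ →* MulAut (FreeGroup ℤ) where
  toFun k := FreeGroup.freeGroupCongr (Equiv.addRight k.toAdd)
  map_one' := by
    have h : ((FreeGroup.freeGroupCongr (Equiv.addRight (0 : ℤ)) : FreeGroup ℤ ≃* FreeGroup ℤ) :
        FreeGroup ℤ →* FreeGroup ℤ) = MonoidHom.id _ := by
      ext1 i
      simp
    ext1 x
    exact DFunLike.congr_fun h x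
  map_mul' k l := by
    have h : ((FreeGroup.freeGroupCongr (Equiv.addRight (k.toAdd + l.toAdd)) :
        FreeGroup ℤ ≃* FreeGroup ℤ) : FreeGroup ℤ →* FreeGroup ℤ) =
        ((FreeGroup.freeGroupCongr (Equiv.addRight k.toAdd) : FreeGroup ℤ ≃* FreeGroup ℤ) :
          FreeGroup ℤ →* FreeGroup ℤ).comp
        ((FreeGroup.freeGroupCongr (Equiv.addRight l.toAdd) : FreeGroup ℤ ≃* FreeGroup ℤ) :
          FreeGroup ℤ →* FreeGroup ℤ) := by
      ext1 i
      simp [add_comm, add_left_comm]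
    ext1 x
    exact DFunLike.congr_fun h x

theorem sh_of (k : Multiplicative ℤ) (i : ℤ) : sh k (FreeGroup.of i) = FreeGroup.of (i + k.toAdd) := by
  simp [sh]

/-- the homomorphism to the semidirect product sending `u` to the letter `0` and `v` to the shift -/
def psi (u : Fin 2) : FreeGroup (Fin 2) →* FreeGroup ℤ ⋊[sh] Multiplicative ℤ :=
  FreeGroup.lift fun i => if i = u then SemidirectProduct.inl (FreeGroup.of 0)
    else SemidirectProduct.inr (Multiplicative.ofAdd 1)

theorem inj (u v : Fin 2) (huv : u ≠ v) : Function.Injective (FreeGroup.lift (fun n : ℕ =>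
    (FreeGroup.of v) ^ (-(n : ℤ)) * FreeGroup.of u * (FreeGroup.of v) ^ (n : ℤ)) :
    FreeGroup ℕ →* FreeGroup (Fin 2)) := by
  have hcomp : (psi u).comp (FreeGroup.lift (fun n : ℕ =>
      (FreeGroup.of v) ^ (-(n : ℤ)) * FreeGroup.of u * (FreeGroup.of v) ^ (n : ℤ)) :
      FreeGroup ℕ →* FreeGroup (Fin 2)) =
      (SemidirectProduct.inl : FreeGroup ℤ →* FreeGroup ℤ ⋊[sh] Multiplicative ℤ).comp
        (FreeGroup.map fun n : ℕ => -(n : ℤ)) := by
    ext1 n
    have h1 : (SemidirectProduct.inr (Multiplicative.ofAdd (1 : ℤ)) :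
        FreeGroup ℤ ⋊[sh] Multiplicative ℤ) ^ (n : ℤ) =
        SemidirectProduct.inr (Multiplicative.ofAdd (n : ℤ)) := by
      rw [← map_zpow, ← ofAdd_zsmul]
      simp
    have h2 : (SemidirectProduct.inr (Multiplicative.ofAdd (1 : ℤ)) :
        FreeGroup ℤ ⋊[sh] Multiplicative ℤ) ^ (-(n : ℤ)) =
        SemidirectProduct.inr (Multiplicative.ofAdd (-(n : ℤ))) := by
      rw [← map_zpow, ← ofAdd_zsmul]
      simp
    have h3 := SemidirectProduct.inl_aut (φ := sh) (Multiplicative.ofAdd (-(n : ℤ))) (FreeGroup.of 0)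
    rw [sh_of] at h3
    simp only [MonoidHom.comp_apply, FreeGroup.lift_apply_of, FreeGroup.map.of, map_mul, map_zpow]
    have h4 : psi u (FreeGroup.of u) = SemidirectProduct.inl (FreeGroup.of 0) := by
      simp [psi]
    have h5 : psi u (FreeGroup.of v) = SemidirectProduct.inr (Multiplicative.ofAdd 1) := by
      simp [psi, huv.symm]
    rw [h4, h5, h1, h2]
    rw [toAdd_ofAdd, zero_add, ← ofAdd_neg, neg_neg] at h3
    exact h3.symm
  have hinj : Function.Injective ((psi u).comp (FreeGroup.lift (fun n : ℕ =>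
      (FreeGroup.of v) ^ (-(n : ℤ)) * FreeGroup.of u * (FreeGroup.of v) ^ (n : ℤ)) :
      FreeGroup ℕ →* FreeGroup (Fin 2))) := by
    rw [hcomp, MonoidHom.coe_comp]
    refine SemidirectProduct.inl_injective.comp ?_
    refine FreeGroup.map_injective ?_
    intro a b hab
    simpa using hab
  rw [MonoidHom.coe_comp] at hinj
  exact hinj.of_comp

theorem inj1 : Function.Injective (FreeGroup.lift (fun n : ℕ =>
    (FreeGroup.of (1 : Fin 2)) ^ (-(n : ℤ)) * FreeGroup.of (0 : Fin 2) *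
      (FreeGroup.of (1 : Fin 2)) ^ (n : ℤ)) : FreeGroup ℕ →* FreeGroup (Fin 2)) :=
  inj 0 1 (by decide)

theorem inj2 : Function.Injective (FreeGroup.lift (fun n : ℕ =>
    (FreeGroup.of (0 : Fin 2)) ^ (-(n : ℤ)) * FreeGroup.of (1 : Fin 2) *
      (FreeGroup.of (0 : Fin 2)) ^ (n : ℤ)) : FreeGroup ℕ →* FreeGroup (Fin 2)) :=
  inj 1 0 (by decide)

end Pool.Agent.Y388.SG
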